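import Mathlib
import Pool.Agent.H31.KG.Main

/-!
Every finite nonempty set of positive integers is the set of all `k` for which some graph is
`k`-graceful.
-/

set_option autoImplicit false

namespace Pool.Agent.Results.MP_53be35_co.GracefulValues

/-- the value `|f(u) - f(v)|` of the edge `uv` -/
def edgeValue {V : Type*} (f : V → ℕ) : Sym2 V → ℕ :=
  Sym2.lift ⟨fun u v => Int.natAbs ((f u : ℤ) - (f v : ℤ)), fun u v => by
    show Int.natAbs ((f u : ℤ) - (f v : ℤ)) = Int.natAbs ((f v : ℤ) - (f u : ℤ))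
    omega⟩

/-- `f` is a `k`-graceful numbering of `G`, a graph with `m` edges: `f` is injective with values in
`{0, ..., m + k - 1}` and takes the edges bijectively to `{k, ..., k + m - 1}` -/
def IsNumbering {V : Type*} (G : SimpleGraph V) (k : ℕ) (f : V → ℕ) : Prop :=
  Function.Injective f ∧ (∀ v, f v ≤ G.edgeSet.ncard + k - 1) ∧
    Set.BijOn (edgeValue f) G.edgeSet {d : ℕ | k ≤ d ∧ d < k + G.edgeSet.ncard}

/-- the set `K(G)` of all `k ≥ 1` such that `G` is `k`-graceful -/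
def gracefulValues {V : Type*} (G : SimpleGraph V) : Set ℕ :=
  {k : ℕ | 1 ≤ k ∧ ∃ f : V → ℕ, IsNumbering G k f}

theorem result (S : Finset ℕ) (hS : S.Nonempty) (hpos : ∀ n ∈ S, 1 ≤ n) :
    ∃ (N : ℕ) (G : SimpleGraph (Fin N)), gracefulValues G = (S : Set ℕ) := by
  obtain ⟨N, G, hG⟩ := Pool.Agent.H31.KG.main S hS hpos
  refine ⟨N, G, ?_⟩
  ext k
  rw [Finset.mem_coe]
  constructor
  · rintro ⟨hk, f, h1, h2, h3⟩
    refine (hG k hk).mp ⟨f, h1, fun v => ?_, fun m hm1 hm2 => ?_⟩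
    · have := h2 v
      omega
    · obtain ⟨e, he, hem⟩ := h3.surjOn (show m ∈ {d : ℕ | k ≤ d ∧ d < k + G.edgeSet.ncard} from
        ⟨hm1, hm2⟩)
      induction e using Sym2.ind with
      | _ u v => exact ⟨u, v, he, hem⟩
  · intro hkS
    have hk : 0 < k := hpos k hkS
    obtain ⟨f, h1, h2, h3⟩ := (hG k hk).mpr hkS
    have hfin : (G.edgeSet).Finite := Set.toFinite _
    have hsub : {d : ℕ | k ≤ d ∧ d < k + G.edgeSet.ncard} ⊆ edgeValue f '' G.edgeSet := by
      rintro d ⟨hd1, hd2⟩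
      obtain ⟨u, v, huv, hd⟩ := h3 d hd1 hd2
      exact ⟨s(u, v), huv, hd⟩
    have hcard : {d : ℕ | k ≤ d ∧ d < k + G.edgeSet.ncard}.ncard = G.edgeSet.ncard := by
      have : {d : ℕ | k ≤ d ∧ d < k + G.edgeSet.ncard} = Set.Ico k (k + G.edgeSet.ncard) := rfl
      rw [this, ← Finset.coe_Ico, Set.ncard_coe_finset, Nat.card_Ico]
      omega
    have hle : (edgeValue f '' G.edgeSet).ncard ≤ G.edgeSet.ncard := Set.ncard_image_le hfin
    have heq : {d : ℕ | k ≤ d ∧ d < k + G.edgeSet.ncard} = edgeValue f '' G.edgeSet :=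
      Set.eq_of_subset_of_ncard_le hsub (by rw [hcard]; exact hle) (hfin.image _)
    refine ⟨hk, f, h1, fun v => by have := h2 v; omega, ?_, ?_, ?_⟩
    · intro e he
      rw [heq]
      exact ⟨e, he, rfl⟩
    · apply Set.injOn_of_ncard_image_eq _ hfin
      rw [← heq, hcard]
    · intro d hd
      rw [heq] at hd
      exact hd

end Pool.Agent.Results.MP_53be35_co.GracefulValues
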